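import Pool.Agent.P8H5.GV.Stm

/-!
# Project GV (helper5, MP_5dd4bb_nt), package RAM: Ramanujan sums
-/

set_option autoImplicit false

open Finset

namespace Pool.Agent.P8H84.GV

open Pool.Agent.P8H5.GV

theorem abs_mu_le (d : ℕ) : |mu d| ≤ 1 := by
  unfold mu
  have h := ArithmeticFunction.abs_moebius_le_one (n := d)
  have : ((|ArithmeticFunction.moebius d| : ℤ) : ℝ) ≤ ((1 : ℤ) : ℝ) := Int.cast_le.2 h
  simpa using this

/-- Möbius inversion. -/
theorem inv (f g : ℕ → ℝ) (h : ∀ n > 0, ∑ i ∈ n.divisors, f i = g n) {n : ℕ} (hn : 0 < n) :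
    ∑ d ∈ n.divisors, mu (n / d) * g d = f n := by
  have h1 := (ArithmeticFunction.sum_eq_iff_sum_mul_moebius_eq (f := f) (g := g)).1 h n hn
  rw [Nat.sum_divisorsAntidiagonal'
    (fun a b => ((ArithmeticFunction.moebius a : ℤ) : ℝ) * g b)] at h1
  exact h1

theorem inv' (f g : ℕ → ℝ) (h : ∀ n > 0, ∑ d ∈ n.divisors, mu (n / d) * g d = f n) {n : ℕ}
    (hn : 0 < n) : ∑ i ∈ n.divisors, f i = g n := by
  refine (ArithmeticFunction.sum_eq_iff_sum_mul_moebius_eq (f := f) (g := g)).2 ?_ n hn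
  intro m hm
  rw [Nat.sum_divisorsAntidiagonal'
    (fun a b => ((ArithmeticFunction.moebius a : ℤ) : ℝ) * g b)]
  exact h m hm

theorem c_eq (r n : ℕ) :
    c r n = ∑ d ∈ r.divisors, mu (r / d) * (if d ∣ n then (d : ℝ) else 0) := by
  unfold c
  rw [sum_filter]
  refine sum_congr rfl fun d _ => ?_
  split_ifs <;> ring

theorem sum_c (n : ℕ) {d : ℕ} (hd : 0 < d) :
    ∑ r ∈ d.divisors, c r n = if d ∣ n then (d : ℝ) else 0 :=
  inv' (fun r => c r n) (fun d => if d ∣ n then (d : ℝ) else 0) (fun m _ => (c_eq m n).symm) hd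

theorem ram1 (D n : ℕ) (hn : 1 ≤ n) : T D n = ∑ r ∈ Icc 1 D, a D r * c r n := by
  unfold a
  simp only [Nat.floor_natCast]
  have h1 : ∑ r ∈ Icc 1 D, (∑ d ∈ (Icc 1 D).filter (fun d : ℕ => r ∣ d),
      mu d * Real.log ((D : ℝ) / d) / d) * c r n =
      ∑ d ∈ Icc 1 D, (mu d * Real.log ((D : ℝ) / d) / d) * ∑ r ∈ d.divisors, c r n := by
    simp only [sum_mul, sum_filter]
    rw [sum_comm]
    refine sum_congr rfl fun d hd => ?_
    rw [mem_Icc] at hd
    have h2 : d.divisors = (Icc 1 D).filter (fun r => r ∣ d) := by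
      ext r
      rw [Nat.mem_divisors, mem_filter, mem_Icc]
      constructor
      · rintro ⟨h, -⟩
        exact ⟨⟨Nat.pos_of_dvd_of_pos h hd.1, (Nat.le_of_dvd hd.1 h).trans hd.2⟩, h⟩
      · rintro ⟨-, h⟩
        exact ⟨h, by omega⟩
    rw [h2, mul_sum, sum_filter]
    refine sum_congr rfl fun r _ => ?_
    split_ifs <;> simp
  rw [h1]
  unfold T
  have h3 : ∀ d ∈ Icc 1 D, (mu d * Real.log ((D : ℝ) / d) / d) * ∑ r ∈ d.divisors, c r n =
      if d ∣ n then mu d * Real.log ((D : ℝ) / d) else 0 := by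
    intro d hd
    rw [mem_Icc] at hd
    rw [sum_c n hd.1]
    have : (d : ℝ) ≠ 0 := by
      have : 0 < d := hd.1
      positivity
    split_ifs
    · field_simp
    · simp
  rw [sum_congr rfl h3, ← sum_filter]
  refine sum_congr ?_ fun _ _ => rfl
  ext d
  rw [mem_filter, mem_filter, mem_Icc, Nat.mem_divisors, Nat.cast_le]
  constructor
  · rintro ⟨⟨h, -⟩, h'⟩
    exact ⟨⟨Nat.pos_of_dvd_of_pos h hn, h'⟩, h⟩
  · rintro ⟨⟨-, h'⟩, h⟩
    exact ⟨⟨h, by omega⟩, h'⟩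

theorem har_nonneg (Y : ℕ) : 0 ≤ ∑ m ∈ Icc 1 Y, (1 : ℝ) / m :=
  sum_nonneg fun m _ => by positivity

theorem har_le {y : ℝ} (hy : 1 ≤ y) : ∑ m ∈ Icc 1 ⌊y⌋₊, (1 : ℝ) / m ≤ 1 + Real.log y := by
  have h := harmonic_floor_le_one_add_log y hy
  rw [harmonic_eq_sum_Icc] at h
  push_cast at h
  simpa [one_div] using h

theorem mult_le (Y r : ℕ) (hr : 1 ≤ r) :
    ∑ d ∈ (Icc 1 Y).filter (fun d : ℕ => r ∣ d), (1 : ℝ) / d ≤
      (1 / r) * ∑ m ∈ Icc 1 Y, (1 : ℝ) / m := by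
  have h1 : (Icc 1 Y).filter (fun d : ℕ => r ∣ d) = (Icc 1 (Y / r)).image (fun m => r * m) := by
    ext d
    simp only [mem_filter, mem_Icc, mem_image]
    constructor
    · rintro ⟨⟨h1, h2⟩, k, rfl⟩
      refine ⟨k, ⟨?_, ?_⟩, rfl⟩
      · exact Nat.pos_of_mul_pos_left h1 |> fun h => by
          rcases Nat.eq_zero_or_pos k with h0 | h0
          · subst h0; simp at h1
          · exact h0
      · rw [Nat.le_div_iff_mul_le hr, mul_comm]
        exact h2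
    · rintro ⟨k, ⟨h1, h2⟩, rfl⟩
      rw [Nat.le_div_iff_mul_le hr] at h2
      exact ⟨⟨Nat.mul_pos hr h1, by rw [mul_comm]; exact h2⟩, Nat.dvd_mul_right r k⟩
  rw [h1, sum_image (fun x _ y _ h => Nat.eq_of_mul_eq_mul_left hr h), mul_sum]
  have h2 : ∀ m ∈ Icc 1 (Y / r), (1 : ℝ) / ((r * m : ℕ) : ℝ) = 1 / r * (1 / m) := by
    intro m _
    push_cast
    rw [one_div_mul_one_div]
  rw [sum_congr rfl h2]
  refine sum_le_sum_of_subset_of_nonneg (Icc_subset_Icc_right (Nat.div_le_self _ _)) ?_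
  intro m _ _
  positivity

theorem ram2 (y : ℝ) (r : ℕ) (hy : 1 ≤ y) (hr : 1 ≤ r) :
    |a y r| ≤ (1 + Real.log y) ^ 2 / r := by
  have hlog : 0 ≤ Real.log y := Real.log_nonneg hy
  unfold a
  calc |∑ d ∈ (Icc 1 ⌊y⌋₊).filter (fun d : ℕ => r ∣ d), mu d * Real.log (y / d) / d|
      ≤ ∑ d ∈ (Icc 1 ⌊y⌋₊).filter (fun d : ℕ => r ∣ d), |mu d * Real.log (y / d) / d| :=
        abs_sum_le_sum_abs _ _
    _ ≤ ∑ d ∈ (Icc 1 ⌊y⌋₊).filter (fun d : ℕ => r ∣ d), Real.log y * (1 / d) := by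
        refine sum_le_sum fun d hd => ?_
        rw [mem_filter, mem_Icc] at hd
        have hd1 : (1 : ℝ) ≤ d := by exact_mod_cast hd.1.1
        have hd2 : (d : ℝ) ≤ y := (Nat.le_floor_iff (by linarith)).1 hd.1.2
        have h1 : 0 ≤ Real.log (y / d) := Real.log_nonneg ((one_le_div (by linarith)).2 hd2)
        have h2 : Real.log (y / d) ≤ Real.log y := by
          apply Real.log_le_log (by positivity)
          exact div_le_self (by linarith) hd1
        rw [abs_div, abs_mul, abs_of_nonneg h1, abs_of_nonneg (by linarith : (0 : ℝ) ≤ d),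
          mul_one_div]
        refine div_le_div_of_nonneg_right ?_ (by linarith)
        calc |mu d| * Real.log (y / d) ≤ 1 * Real.log (y / d) :=
              mul_le_mul_of_nonneg_right (abs_mu_le d) h1
          _ ≤ Real.log y := by linarith
    _ = Real.log y * ∑ d ∈ (Icc 1 ⌊y⌋₊).filter (fun d : ℕ => r ∣ d), (1 : ℝ) / d := by
        rw [mul_sum]
    _ ≤ Real.log y * ((1 / r) * ∑ m ∈ Icc 1 ⌊y⌋₊, (1 : ℝ) / m) :=
        mul_le_mul_of_nonneg_left (mult_le _ r hr) hlog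
    _ ≤ Real.log y * ((1 / r) * (1 + Real.log y)) := by
        refine mul_le_mul_of_nonneg_left ?_ hlog
        exact mul_le_mul_of_nonneg_left (har_le hy) (by positivity)
    _ ≤ (1 + Real.log y) ^ 2 / r := by
        have hr' : (0 : ℝ) < r := by exact_mod_cast hr
        rw [show Real.log y * (1 / r * (1 + Real.log y)) = (Real.log y * (1 + Real.log y)) / r by
          field_simp]
        refine div_le_div_of_nonneg_right ?_ hr'.le
        nlinarith

theorem abs_c_le (r n : ℕ) :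
    |c r n| ≤ ∑ d ∈ r.divisors.filter (fun d : ℕ => d ∣ n), (d : ℝ) := by
  unfold c
  refine (abs_sum_le_sum_abs _ _).trans (sum_le_sum fun d _ => ?_)
  rw [abs_mul, abs_of_nonneg (Nat.cast_nonneg d)]
  have h : |mu (r / d)| ≤ 1 := abs_mu_le _
  have h' : (0 : ℝ) ≤ d := Nat.cast_nonneg d
  nlinarith

theorem ram3 (D R n : ℕ) (hD : 1 ≤ D) (hn : 1 ≤ n) :
    |F D R n| ≤ (1 + Real.log D) ^ 3 * (n.divisors.card : ℝ) := by
  have hD' : (1 : ℝ) ≤ D := by exact_mod_cast hD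
  have hlog : 0 ≤ Real.log (D : ℝ) := Real.log_nonneg hD'
  set L : ℝ := 1 + Real.log D with hL
  have hL1 : 0 ≤ L := by linarith
  unfold F
  calc |∑ r ∈ Ioc R D, a D r * c r n| ≤ ∑ r ∈ Ioc R D, |a D r * c r n| := abs_sum_le_sum_abs _ _
    _ ≤ ∑ r ∈ Icc 1 D, |a D r * c r n| := by
        refine sum_le_sum_of_subset_of_nonneg ?_ fun _ _ _ => abs_nonneg _
        intro r hr
        rw [mem_Ioc] at hr
        rw [mem_Icc]
        omega
    _ ≤ ∑ r ∈ Icc 1 D, ∑ d ∈ n.divisors, if d ∣ r then L ^ 2 * d * (1 / r) else 0 := by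
        refine sum_le_sum fun r hr => ?_
        rw [mem_Icc] at hr
        rw [abs_mul]
        have h1 := ram2 D r hD' hr.1
        have h2 := abs_c_le r n
        have h3 : r.divisors.filter (fun d : ℕ => d ∣ n) = n.divisors.filter (fun d => d ∣ r) := by
          ext d
          rw [mem_filter, mem_filter, Nat.mem_divisors, Nat.mem_divisors]
          constructor
          · rintro ⟨⟨h, -⟩, h'⟩
            exact ⟨⟨h', by omega⟩, h⟩
          · rintro ⟨⟨h, -⟩, h'⟩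
            exact ⟨⟨h', by omega⟩, h⟩
        rw [h3, sum_filter] at h2
        calc |a D r| * |c r n| ≤ (L ^ 2 / r) * ∑ d ∈ n.divisors, (if d ∣ r then (d : ℝ) else 0) := by
              refine mul_le_mul h1 h2 (abs_nonneg _) (by positivity)
          _ = ∑ d ∈ n.divisors, if d ∣ r then L ^ 2 * d * (1 / r) else 0 := by
              rw [mul_sum]
              refine sum_congr rfl fun d _ => ?_
              split_ifs
              · ring
              · simp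
    _ = ∑ d ∈ n.divisors, L ^ 2 * d * ∑ r ∈ (Icc 1 D).filter (fun r : ℕ => d ∣ r), (1 : ℝ) / r := by
        rw [sum_comm]
        refine sum_congr rfl fun d _ => ?_
        rw [sum_filter, mul_sum]
        refine sum_congr rfl fun r _ => ?_
        split_ifs <;> simp
    _ ≤ ∑ d ∈ n.divisors, L ^ 3 := by
        refine sum_le_sum fun d hd => ?_
        have hd1 : 1 ≤ d := Nat.pos_of_mem_divisors hd
        have hd' : (0 : ℝ) < d := by exact_mod_cast hd1
        have h1 := mult_le D d hd1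
        have h2 : ∑ m ∈ Icc 1 D, (1 : ℝ) / m ≤ L := by
          have := har_le hD'
          rwa [Nat.floor_natCast] at this
        calc L ^ 2 * d * ∑ r ∈ (Icc 1 D).filter (fun r : ℕ => d ∣ r), (1 : ℝ) / r
            ≤ L ^ 2 * d * ((1 / d) * L) := by
              refine mul_le_mul_of_nonneg_left (h1.trans ?_) (by positivity)
              exact mul_le_mul_of_nonneg_left h2 (by positivity)
          _ = L ^ 3 := by field_simp
    _ = L ^ 3 * (n.divisors.card : ℝ) := by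
        rw [sum_const, nsmul_eq_mul, mul_comm]

/-- Sum of divisors. -/
noncomputable def sg (r : ℕ) : ℝ := ∑ d ∈ r.divisors, (d : ℝ)

theorem sg_nonneg (r : ℕ) : 0 ≤ sg r := sum_nonneg fun _ _ => Nat.cast_nonneg _

theorem mob_dvd (j : ℕ) (hj : 1 ≤ j) {r : ℕ} (hr : 0 < r) :
    ∑ d ∈ r.divisors, mu (r / d) * (if j ∣ d then (1 : ℝ) else 0) = if j = r then 1 else 0 := by
  refine inv (fun r => if j = r then (1 : ℝ) else 0) (fun d => if j ∣ d then (1 : ℝ) else 0)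
    ?_ hr
  intro n hn
  rw [Finset.sum_ite_eq]
  simp only [Nat.mem_divisors]
  have : (j ∣ n ∧ n ≠ 0) ↔ j ∣ n := ⟨fun h => h.1, fun h => ⟨h, by omega⟩⟩
  simp only [this]

theorem gcd_eq {d e r : ℕ} (hd : d ∈ r.divisors) :
    ((d.gcd e : ℕ) : ℝ) = ∑ j ∈ Icc 1 r, (Nat.totient j : ℝ) *
      ((if j ∣ d then (1 : ℝ) else 0) * (if j ∣ e then (1 : ℝ) else 0)) := by
  have hd1 : 0 < d := Nat.pos_of_mem_divisors hd
  have hdr : d ≤ r := Nat.divisor_le hd
  have h := Nat.sum_totient (d.gcd e)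
  have h2 : ((d.gcd e : ℕ) : ℝ) = ∑ j ∈ (d.gcd e).divisors, (Nat.totient j : ℝ) := by
    rw [← Nat.cast_sum]
    exact congrArg _ h.symm
  rw [h2]
  have h3 : (d.gcd e).divisors = (Icc 1 r).filter (fun j => j ∣ d ∧ j ∣ e) := by
    ext j
    rw [Nat.mem_divisors, mem_filter, mem_Icc, Nat.dvd_gcd_iff]
    constructor
    · rintro ⟨⟨h1, h2⟩, -⟩
      exact ⟨⟨Nat.pos_of_dvd_of_pos h1 hd1, (Nat.le_of_dvd hd1 h1).trans hdr⟩, h1, h2⟩
    · rintro ⟨-, h1, h2⟩
      exact ⟨⟨h1, h2⟩, (Nat.gcd_pos_of_pos_left _ hd1).ne'⟩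
  rw [h3, sum_filter]
  refine sum_congr rfl fun j _ => ?_
  by_cases h1 : j ∣ d <;> by_cases h2 : j ∣ e <;> simp [h1, h2]

theorem main_term {r s : ℕ} (hr : 0 < r) (hs : 0 < s) :
    ∑ d ∈ r.divisors, ∑ e ∈ s.divisors, mu (r / d) * mu (s / e) * ((d.gcd e : ℕ) : ℝ) =
      if r = s then (Nat.totient r : ℝ) else 0 := by
  have h1 : ∀ d ∈ r.divisors, ∀ e ∈ s.divisors, mu (r / d) * mu (s / e) * ((d.gcd e : ℕ) : ℝ) =
      ∑ j ∈ Icc 1 r, (Nat.totient j : ℝ) * ((mu (r / d) * (if j ∣ d then (1 : ℝ) else 0)) *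
        (mu (s / e) * (if j ∣ e then (1 : ℝ) else 0))) := by
    intro d hd e _
    rw [gcd_eq hd, mul_sum]
    refine sum_congr rfl fun j _ => ?_
    ring
  rw [sum_congr rfl fun d hd => sum_congr rfl fun e he => h1 d hd e he]
  rw [sum_congr rfl fun d _ => sum_comm, sum_comm]
  have h2 : ∀ j ∈ Icc 1 r, (∑ d ∈ r.divisors, ∑ e ∈ s.divisors, (Nat.totient j : ℝ) *
      ((mu (r / d) * (if j ∣ d then (1 : ℝ) else 0)) *
        (mu (s / e) * (if j ∣ e then (1 : ℝ) else 0)))) =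
      if j = r then (if r = s then (Nat.totient r : ℝ) else 0) else 0 := by
    intro j hj
    rw [mem_Icc] at hj
    have h3 := mob_dvd j hj.1 hr
    have h4 := mob_dvd j hj.1 hs
    simp only [← mul_sum, ← sum_mul, h3, h4]
    by_cases h5 : j = r
    · subst h5
      simp
    · simp [h5]
  rw [sum_congr rfl h2, Finset.sum_ite_eq' (Icc 1 r) r]
  rw [if_pos (mem_Icc.2 ⟨hr, le_rfl⟩)]

theorem count (N m : ℕ) : ∑ n ∈ Icc 1 N, (if m ∣ n then (1 : ℝ) else 0) = ((N / m : ℕ) : ℝ) := by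
  rw [← Nat.Ioc_filter_dvd_card_eq_div N m, sum_ite, sum_const_zero, add_zero, sum_const,
    nsmul_eq_mul, mul_one]
  congr 2

theorem orth (N : ℕ) {r s : ℕ} (hr : 0 < r) (hs : 0 < s) :
    |∑ n ∈ Icc 1 N, c r n * c s n - (if r = s then (N : ℝ) * (Nat.totient r : ℝ) else 0)| ≤
      sg r * sg s := by
  have h1 : ∑ n ∈ Icc 1 N, c r n * c s n = ∑ d ∈ r.divisors, ∑ e ∈ s.divisors,
      mu (r / d) * mu (s / e) * ((d : ℝ) * e * ((N / d.lcm e : ℕ) : ℝ)) := by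
    have h2 : ∀ n ∈ Icc 1 N, c r n * c s n = ∑ d ∈ r.divisors, ∑ e ∈ s.divisors,
        mu (r / d) * mu (s / e) * ((d : ℝ) * e * (if d.lcm e ∣ n then (1 : ℝ) else 0)) := by
      intro n _
      rw [c_eq, c_eq, sum_mul_sum]
      refine sum_congr rfl fun d _ => sum_congr rfl fun e _ => ?_
      by_cases h3 : d ∣ n <;> by_cases h4 : e ∣ n <;> simp [h3, h4, Nat.lcm_dvd_iff]
      ring
    rw [sum_congr rfl h2, sum_comm]
    refine sum_congr rfl fun d _ => ?_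
    rw [sum_comm]
    refine sum_congr rfl fun e _ => ?_
    rw [← mul_sum, ← mul_sum, count]
  have h2 : (if r = s then (N : ℝ) * (Nat.totient r : ℝ) else 0) =
      ∑ d ∈ r.divisors, ∑ e ∈ s.divisors,
        mu (r / d) * mu (s / e) * (N * ((d.gcd e : ℕ) : ℝ)) := by
    have h3 := main_term hr hs
    have h4 : (if r = s then (N : ℝ) * (Nat.totient r : ℝ) else 0) =
        N * (if r = s then (Nat.totient r : ℝ) else 0) := by
      split_ifs <;> simp
    rw [h4, ← h3, mul_sum]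
    refine sum_congr rfl fun d _ => ?_
    rw [mul_sum]
    refine sum_congr rfl fun e _ => ?_
    ring
  rw [h1, h2, ← sum_sub_distrib]
  simp only [← sum_sub_distrib, ← mul_sub]
  unfold sg
  rw [sum_mul_sum]
  refine (abs_sum_le_sum_abs _ _).trans (sum_le_sum fun d hd => ?_)
  refine (abs_sum_le_sum_abs _ _).trans (sum_le_sum fun e he => ?_)
  have hd1 : 0 < d := Nat.pos_of_mem_divisors hd
  have he1 : 0 < e := Nat.pos_of_mem_divisors he
  have hd' : (0 : ℝ) < d := by exact_mod_cast hd1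
  have he' : (0 : ℝ) < e := by exact_mod_cast he1
  have hl : 0 < d.lcm e := Nat.lcm_pos hd1 he1
  have hl' : (0 : ℝ) < (d.lcm e : ℕ) := by exact_mod_cast hl
  have hg : ((d.gcd e : ℕ) : ℝ) * ((d.lcm e : ℕ) : ℝ) = d * e := by
    exact_mod_cast Nat.gcd_mul_lcm d e
  have hdiv1 : ((N / d.lcm e : ℕ) : ℝ) ≤ (N : ℝ) / (d.lcm e : ℕ) := Nat.cast_div_le
  have hdiv2 : (N : ℝ) / (d.lcm e : ℕ) - 1 ≤ ((N / d.lcm e : ℕ) : ℝ) := by
    rw [sub_le_iff_le_add, div_le_iff₀ hl']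
    have := Nat.lt_div_mul_add hl (a := N)
    have h5 : (N : ℝ) ≤ ((N / d.lcm e : ℕ) : ℝ) * ((d.lcm e : ℕ) : ℝ) + ((d.lcm e : ℕ) : ℝ) := by
      exact_mod_cast this.le
    nlinarith
  have hmain : (d : ℝ) * e * ((N : ℝ) / (d.lcm e : ℕ)) = N * ((d.gcd e : ℕ) : ℝ) := by
    rw [← hg]
    field_simp
  have hdiff : |(d : ℝ) * e * ((N / d.lcm e : ℕ) : ℝ) - N * ((d.gcd e : ℕ) : ℝ)| ≤ d * e := by
    rw [← hmain, ← mul_sub, abs_mul, abs_of_pos (mul_pos hd' he')]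
    have : |((N / d.lcm e : ℕ) : ℝ) - (N : ℝ) / (d.lcm e : ℕ)| ≤ 1 := by
      rw [abs_le]
      constructor <;> linarith
    nlinarith [mul_pos hd' he']
  rw [abs_mul, abs_mul]
  have hm : |mu (r / d)| * |mu (s / e)| ≤ 1 :=
    mul_le_one₀ (abs_mu_le _) (abs_nonneg _) (abs_mu_le _)
  calc |mu (r / d)| * |mu (s / e)| * |(d : ℝ) * e * ((N / d.lcm e : ℕ) : ℝ) -
        N * ((d.gcd e : ℕ) : ℝ)| ≤ 1 * (d * e) :=
        mul_le_mul hm hdiff (abs_nonneg _) zero_le_one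
    _ = d * e := one_mul _

theorem sg_le {s : ℕ} (hs : 0 < s) : sg s ≤ s * ∑ m ∈ Icc 1 s, (1 : ℝ) / m := by
  unfold sg
  rw [← Nat.sum_div_divisors s (fun d => (d : ℝ)), mul_sum]
  have h1 : ∀ d ∈ s.divisors, (((s / d : ℕ)) : ℝ) = s * (1 / d) := by
    intro d hd
    have hd1 : 0 < d := Nat.pos_of_mem_divisors hd
    have hd' : (d : ℝ) ≠ 0 := by positivity
    rw [Nat.cast_div (Nat.dvd_of_mem_divisors hd) hd']
    ring
  rw [sum_congr rfl h1]
  refine sum_le_sum_of_subset_of_nonneg ?_ fun m _ _ => by positivity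
  intro d hd
  exact mem_Icc.2 ⟨Nat.pos_of_mem_divisors hd, Nat.divisor_le hd⟩

theorem a_sg_le (D s : ℕ) (hs : 1 ≤ s) (hsD : s ≤ D) :
    |a D s| * sg s ≤ (1 + Real.log D) ^ 3 := by
  have hD : 1 ≤ D := hs.trans hsD
  have hD' : (1 : ℝ) ≤ D := by exact_mod_cast hD
  have hs' : (0 : ℝ) < s := by exact_mod_cast hs
  have hlog : 0 ≤ Real.log (D : ℝ) := Real.log_nonneg hD'
  have h1 := ram2 D s hD' hs
  have h2 := sg_le (s := s) hs
  have h3 : ∑ m ∈ Icc 1 s, (1 : ℝ) / m ≤ 1 + Real.log D := by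
    have := har_le hD'
    rw [Nat.floor_natCast] at this
    refine le_trans ?_ this
    exact sum_le_sum_of_subset_of_nonneg (Icc_subset_Icc_right hsD) fun m _ _ => by positivity
  calc |a D s| * sg s ≤ ((1 + Real.log D) ^ 2 / s) * (s * (1 + Real.log D)) := by
        refine mul_le_mul h1 (h2.trans (mul_le_mul_of_nonneg_left h3 hs'.le)) (sg_nonneg s)
          (by positivity)
    _ = (1 + Real.log D) ^ 3 := by field_simp

/-- Bilinear sums. -/
theorem bil (D N : ℕ) (I J : Finset ℕ) (hI : ∀ r ∈ I, 1 ≤ r) (hJ : ∀ r ∈ J, 1 ≤ r) :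
    |∑ n ∈ Icc 1 N, (∑ r ∈ I, a D r * c r n) * (∑ s ∈ J, a D s * c s n) -
      ∑ r ∈ I, ∑ s ∈ J, a D r * a D s * (if r = s then (N : ℝ) * (Nat.totient r : ℝ) else 0)| ≤
      (∑ r ∈ I, |a D r| * sg r) * (∑ s ∈ J, |a D s| * sg s) := by
  have h1 : ∑ n ∈ Icc 1 N, (∑ r ∈ I, a D r * c r n) * (∑ s ∈ J, a D s * c s n) =
      ∑ r ∈ I, ∑ s ∈ J, a D r * a D s * ∑ n ∈ Icc 1 N, c r n * c s n := by
    have h2 : ∀ n ∈ Icc 1 N, (∑ r ∈ I, a D r * c r n) * (∑ s ∈ J, a D s * c s n) =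
        ∑ r ∈ I, ∑ s ∈ J, a D r * a D s * (c r n * c s n) := by
      intro n _
      rw [sum_mul_sum]
      refine sum_congr rfl fun r _ => sum_congr rfl fun s _ => ?_
      ring
    rw [sum_congr rfl h2, sum_comm]
    refine sum_congr rfl fun r _ => ?_
    rw [sum_comm]
    refine sum_congr rfl fun s _ => ?_
    rw [mul_sum]
  rw [h1, ← sum_sub_distrib]
  simp only [← sum_sub_distrib, ← mul_sub]
  rw [sum_mul_sum]
  refine (abs_sum_le_sum_abs _ _).trans (sum_le_sum fun r hr => ?_)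
  refine (abs_sum_le_sum_abs _ _).trans (sum_le_sum fun s hs => ?_)
  rw [abs_mul, abs_mul]
  have := orth N (hI r hr) (hJ s hs)
  calc |a D r| * |a D s| * |∑ n ∈ Icc 1 N, c r n * c s n -
        (if r = s then (N : ℝ) * (Nat.totient r : ℝ) else 0)|
      ≤ |a D r| * |a D s| * (sg r * sg s) :=
        mul_le_mul_of_nonneg_left this (by positivity)
    _ = |a D r| * sg r * (|a D s| * sg s) := by ring

theorem ram4 (D R N : ℕ) (hR : 1 ≤ R) (hRD : R ≤ D) :
    ∑ n ∈ Icc 1 N, F D R n ^ 2 ≤ ∑ n ∈ Icc 1 N, T D n ^ 2 -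
      N * ∑ r ∈ Icc 1 R, (Nat.totient r : ℝ) * a D r ^ 2
      + 3 * (R * D * (1 + Real.log D) ^ 6) := by
  have hD : 1 ≤ D := hR.trans hRD
  have hD' : (1 : ℝ) ≤ D := by exact_mod_cast hD
  have hR' : (1 : ℝ) ≤ R := by exact_mod_cast hR
  have hRD' : (R : ℝ) ≤ D := by exact_mod_cast hRD
  have hlog : 0 ≤ Real.log (D : ℝ) := Real.log_nonneg hD'
  set L : ℝ := 1 + Real.log D with hL
  have hL1 : 1 ≤ L := by linarith
  let P : ℕ → ℝ := fun n => ∑ r ∈ Icc 1 R, a D r * c r n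
  have hT : ∀ n ∈ Icc 1 N, T D n = P n + F D R n := by
    intro n hn
    rw [ram1 D n (mem_Icc.1 hn).1]
    have h1 : Icc 1 D = Icc 1 R ∪ Ioc R D := by
      ext m
      simp only [mem_union, mem_Icc, mem_Ioc]
      omega
    have h2 : Disjoint (Icc 1 R) (Ioc R D) := by
      rw [Finset.disjoint_left]
      intro m h h'
      rw [mem_Icc] at h
      rw [mem_Ioc] at h'
      omega
    rw [h1, sum_union h2]
    rfl
  have hB1 : ∑ r ∈ Icc 1 R, |a D r| * sg r ≤ R * L ^ 3 := by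
    calc ∑ r ∈ Icc 1 R, |a D r| * sg r ≤ ∑ r ∈ Icc 1 R, L ^ 3 := by
          refine sum_le_sum fun r hr => ?_
          rw [mem_Icc] at hr
          exact a_sg_le D r hr.1 (hr.2.trans hRD)
      _ = R * L ^ 3 := by simp
  have hB2 : ∑ r ∈ Ioc R D, |a D r| * sg r ≤ D * L ^ 3 := by
    calc ∑ r ∈ Ioc R D, |a D r| * sg r ≤ ∑ r ∈ Ioc R D, L ^ 3 := by
          refine sum_le_sum fun r hr => ?_
          rw [mem_Ioc] at hr
          exact a_sg_le D r (by omega) hr.2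
      _ = ((D - R : ℕ) : ℝ) * L ^ 3 := by simp
      _ ≤ D * L ^ 3 := by
          refine mul_le_mul_of_nonneg_right ?_ (by positivity)
          exact_mod_cast Nat.sub_le D R
  have hB1' : 0 ≤ ∑ r ∈ Icc 1 R, |a D r| * sg r :=
    sum_nonneg fun r _ => mul_nonneg (abs_nonneg _) (sg_nonneg r)
  have hB2' : 0 ≤ ∑ r ∈ Ioc R D, |a D r| * sg r :=
    sum_nonneg fun r _ => mul_nonneg (abs_nonneg _) (sg_nonneg r)
  have h1 := bil D N (Icc 1 R) (Icc 1 R) (fun r hr => (mem_Icc.1 hr).1)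
    (fun r hr => (mem_Icc.1 hr).1)
  have h2 := bil D N (Icc 1 R) (Ioc R D) (fun r hr => (mem_Icc.1 hr).1)
    (fun r hr => by have := (mem_Ioc.1 hr).1; omega)
  have h3 : ∑ r ∈ Icc 1 R, ∑ s ∈ Icc 1 R, a D r * a D s *
      (if r = s then (N : ℝ) * (Nat.totient r : ℝ) else 0) =
      N * ∑ r ∈ Icc 1 R, (Nat.totient r : ℝ) * a D r ^ 2 := by
    rw [mul_sum]
    refine sum_congr rfl fun r hr => ?_
    have h4 : ∀ s ∈ Icc 1 R, a D r * a D s *
        (if r = s then (N : ℝ) * (Nat.totient r : ℝ) else 0) =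
        if r = s then N * ((Nat.totient r : ℝ) * a D r ^ 2) else 0 := by
      intro s _
      split_ifs with h
      · subst h; ring
      · simp
    rw [sum_congr rfl h4, Finset.sum_ite_eq, if_pos hr]
  have h4 : ∑ r ∈ Icc 1 R, ∑ s ∈ Ioc R D, a D r * a D s *
      (if r = s then (N : ℝ) * (Nat.totient r : ℝ) else 0) = 0 := by
    refine sum_eq_zero fun r hr => sum_eq_zero fun s hs => ?_
    rw [mem_Icc] at hr
    rw [mem_Ioc] at hs
    rw [if_neg (by omega), mul_zero]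
  rw [h3] at h1
  rw [h4, sub_zero] at h2
  have h5 : ∑ n ∈ Icc 1 N, T D n ^ 2 = ∑ n ∈ Icc 1 N, P n * P n +
      2 * ∑ n ∈ Icc 1 N, P n * F D R n + ∑ n ∈ Icc 1 N, F D R n ^ 2 := by
    rw [mul_sum, ← sum_add_distrib, ← sum_add_distrib]
    refine sum_congr rfl fun n hn => ?_
    rw [hT n hn]
    ring
  have h1' := (abs_le.1 h1).1
  have h2' := (abs_le.1 h2).1
  have h6 : (∑ r ∈ Icc 1 R, |a D r| * sg r) * (∑ s ∈ Icc 1 R, |a D s| * sg s) ≤
      R * D * L ^ 6 := by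
    calc (∑ r ∈ Icc 1 R, |a D r| * sg r) * (∑ s ∈ Icc 1 R, |a D s| * sg s)
        ≤ (R * L ^ 3) * (R * L ^ 3) := mul_le_mul hB1 hB1 hB1' (by positivity)
      _ = R * R * L ^ 6 := by ring
      _ ≤ R * D * L ^ 6 := by
          refine mul_le_mul_of_nonneg_right ?_ (by positivity)
          exact mul_le_mul_of_nonneg_left hRD' (by positivity)
  have h7 : (∑ r ∈ Icc 1 R, |a D r| * sg r) * (∑ s ∈ Ioc R D, |a D s| * sg s) ≤
      R * D * L ^ 6 := by
    calc (∑ r ∈ Icc 1 R, |a D r| * sg r) * (∑ s ∈ Ioc R D, |a D s| * sg s)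
        ≤ (R * L ^ 3) * (D * L ^ 3) := mul_le_mul hB1 hB2 hB2' (by positivity)
      _ = R * D * L ^ 6 := by ring
  have h8 : ∑ n ∈ Icc 1 N, P n * F D R n =
      ∑ n ∈ Icc 1 N, (∑ r ∈ Icc 1 R, a D r * c r n) * (∑ s ∈ Ioc R D, a D s * c s n) := rfl
  have h9 : ∑ n ∈ Icc 1 N, P n * P n =
      ∑ n ∈ Icc 1 N, (∑ r ∈ Icc 1 R, a D r * c r n) * (∑ s ∈ Icc 1 R, a D s * c s n) := rfl
  rw [← h8] at h2'
  rw [← h9] at h1'
  linarith

/-- **RAM**. -/
theorem ram : S_RAM :=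
  ⟨ram1, ram2, ram3, 3, by norm_num, ram4⟩

end Pool.Agent.P8H84.GV
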